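import Pool.Agent.H37.CSZ.Stmts
import Pool.Agent.H54.CNU.UNE

/-!
# Board `csz`, row ZZE: existence of the data of the `Sz(q)` cover (after the row UNE of helper54)
-/

set_option autoImplicit false

namespace Pool.CND

open Finset Matrix

theorem zze_thm (hZZL : S_ZZL) (hLSP : S_LSP) (hSBP : S_SBP) (hZZR : S_ZZR) (hZZV : S_ZZV)
    (hZZT : S_ZZT) (hZZG : S_ZZG) : S_ZZE := by
  intro n q f e k F _ _ _ _ φ hc hn hf hq he hF hφ
  have hf4 : 4 ≤ f := by
    rw [hf]
    calc 4 = 2 ^ 2 := by norm_num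
      _ ≤ 2 ^ (n + 1) := Nat.pow_le_pow_right (by norm_num) (by omega)
  have hqf : q = 2 ^ n * f := by
    rw [hq, hf, ← pow_add]
    congr 1
    omega
  have h2n : 2 ≤ 2 ^ n := by
    calc 2 = 2 ^ 1 := by norm_num
      _ ≤ 2 ^ n := Nat.pow_le_pow_right (by norm_num) hn
  have hq8 : 2 * f ≤ q := by
    rw [hqf]
    exact Nat.mul_le_mul_right f h2n
  have he1 : 1 ≤ e := by omega
  obtain ⟨X, Z, W, U, hU, hX, hZ, hW, oU, oX, oZ, oW, e1, e2, e3⟩ :=
    hZZL n q f e k hc hn hf hq he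
  obtain ⟨Λ, hΛ⟩ := hLSP k
  rw [← hΛ X hX] at oX
  rw [← hΛ Z hZ] at oZ
  rw [← hΛ W hW] at oW
  rw [← hΛ U hU] at oU
  let E : IntermediateField k (LaurentSeries k) :=
    IntermediateField.adjoin k ({X, Z, U} : Set (LaurentSeries k))
  have hXE : X ∈ E := IntermediateField.subset_adjoin k _ (by simp)
  have hZE : Z ∈ E := IntermediateField.subset_adjoin k _ (by simp)
  have hUE : U ∈ E := IntermediateField.subset_adjoin k _ (by simp)
  have hWE : W ∈ E := by
    rw [e3]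
    exact add_mem (add_mem (mul_mem hXE hZE) (pow_mem hXE _)) (pow_mem hZE _)
  obtain ⟨P, hP⟩ := hSBP k (LaurentSeries k) Λ E ⟨_, hUE⟩
    (fun h => hU (congrArg Subtype.val h)) oU
  obtain ⟨x, hx⟩ : ∃ x : E, (x : LaurentSeries k) = X := ⟨⟨X, hXE⟩, rfl⟩
  obtain ⟨z, hz⟩ : ∃ z : E, (z : LaurentSeries k) = Z := ⟨⟨Z, hZE⟩, rfl⟩
  obtain ⟨w, hw⟩ : ∃ w : E, (w : LaurentSeries k) = W := ⟨⟨W, hWE⟩, rfl⟩
  obtain ⟨u, hu⟩ : ∃ u : E, (u : LaurentSeries k) = U := ⟨⟨U, hUE⟩, rfl⟩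
  have hx0 : x ≠ 0 := fun h => hX (by rw [← hx, h]; rfl)
  have hz0 : z ≠ 0 := fun h => hZ (by rw [← hz, h]; rfl)
  have hw0 : w ≠ 0 := fun h => hW (by rw [← hw, h]; rfl)
  have hu0 : u ≠ 0 := fun h => hU (by rw [← hu, h]; rfl)
  have f1 : x ^ q + x = u ^ e := by
    apply Subtype.ext
    push_cast
    rw [hx, hu]
    exact e1
  have f2 : z ^ q + z = x ^ f * u ^ e := by
    apply Subtype.ext
    push_cast
    rw [hx, hu, hz]
    exact e2
  have f3 : w = x * z + x ^ (f + 2) + z ^ f := by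
    apply Subtype.ext
    push_cast
    rw [hx, hw, hz]
    exact e3
  have ox : P.ord x = (e : ℤ) := by rw [hP, hx]; exact oX
  have oz : P.ord z = (e : ℤ) * (f + 1) := by rw [hP, hz]; exact oZ
  have ow : P.ord w = ((q ^ 2 + 1 : ℕ) : ℤ) := by rw [hP, hw]; exact oW
  have ou : P.ord u = 1 := by rw [hP, hu]; exact oU
  have htop : (⊤ : IntermediateField k E).map E.val = E := by
    rw [← AlgHom.fieldRange_eq_map, IntermediateField.fieldRange_val]
  have hadj : IntermediateField.adjoin k {x, z, u} = ⊤ := by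
    apply IntermediateField.map_injective E.val
    rw [htop, IntermediateField.adjoin_map]
    simp only [Set.image_insert_eq, Set.image_singleton]
    show IntermediateField.adjoin k {(x : LaurentSeries k), (z : LaurentSeries k),
      (u : LaurentSeries k)} = E
    rw [hx, hz, hu]
  have hcE : CharP E 2 := charP_of_injective_algebraMap (algebraMap k E).injective 2
  have htru : Transcendental k u := une_tr_of_pos P u hu0 (by rw [ou]; norm_num)
  obtain ⟨t, ht⟩ : ∃ t : E, t = (w / u) * (1 / u) ^ (q ^ 3) + (1 / u) * (w / u) ^ (q ^ 3) +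
      (z / u) * (x / u) ^ (q ^ 3) + (x / u) * (z / u) ^ (q ^ 3) := ⟨_, rfl⟩
  obtain ⟨hR, hT⟩ := hZZR n q f e E x z w u t hcE hn hf hq he hu0 f1 f2 f3 ht
  obtain ⟨hle, hdeg⟩ := hZZT n q f e k E u t hc hn hf hq he htru hT
  have hfin : Module.finrank (IntermediateField.adjoin k {t}) E =
      q ^ 2 * ((q - 1) * (q ^ 2 + 1)) := by
    rw [← IntermediateField.relfinrank_top_right, ← hadj,
      ← IntermediateField.relfinrank_mul_relfinrank hle (IntermediateField.adjoin.mono k _ _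
        (by intro y hy; rw [Set.mem_singleton_iff.1 hy]; simp) :
        IntermediateField.adjoin k {u} ≤ IntermediateField.adjoin k {x, z, u}), hdeg,
      hZZV n q f e k F E x z u hc hn hf hq he hF htru f1 f2]
    ring
  -- the elements `X i`
  have g0 : (![w / u, z / u, x / u, 1 / u] : Fin 4 → E) 0 = w / u := rfl
  have g1 : (![w / u, z / u, x / u, 1 / u] : Fin 4 → E) 1 = z / u := rfl
  have g2 : (![w / u, z / u, x / u, 1 / u] : Fin 4 → E) 2 = x / u := rfl
  have g3 : (![w / u, z / u, x / u, 1 / u] : Fin 4 → E) 3 = 1 / u := rfl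
  have q1 : (![w / u, z / u, x / u, 1 / u] : Fin 4 → E) 1 /
      (![w / u, z / u, x / u, 1 / u] : Fin 4 → E) 3 = z := by
    rw [g3, g1]
    field_simp
  have q2 : (![w / u, z / u, x / u, 1 / u] : Fin 4 → E) 2 /
      (![w / u, z / u, x / u, 1 / u] : Fin 4 → E) 3 = x := by
    rw [g3, g2]
    field_simp
  have q3 : 1 / (![w / u, z / u, x / u, 1 / u] : Fin 4 → E) 3 = u := by
    rw [g3]
    field_simp
  have hadj2 : IntermediateField.adjoin k
      (insert t (Set.range (![w / u, z / u, x / u, 1 / u] : Fin 4 → E))) = ⊤ := by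
    rw [eq_top_iff, ← hadj, IntermediateField.adjoin_le_iff]
    have hm : ∀ i, (![w / u, z / u, x / u, 1 / u] : Fin 4 → E) i ∈ IntermediateField.adjoin k
        (insert t (Set.range (![w / u, z / u, x / u, 1 / u] : Fin 4 → E))) := fun i =>
      IntermediateField.subset_adjoin k _ (Set.mem_insert_of_mem _ ⟨i, rfl⟩)
    have m1 := div_mem (hm 1) (hm 3)
    have m2 := div_mem (hm 2) (hm 3)
    have m3 := div_mem (one_mem _) (hm 3)
    rw [q1] at m1
    rw [q2] at m2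
    rw [q3] at m3
    intro y hy
    simp only [Set.mem_insert_iff, Set.mem_singleton_iff] at hy
    rcases hy with rfl | rfl | rfl
    · exact m2
    · exact m1
    · exact m3
  obtain ⟨ρ, a1, a2, a3⟩ := hZZG n q f k F E φ t _ hc hn hf hq hF hφ hR hadj2 hfin
  -- orders
  have o0 : P.ord (w / u) = ((q ^ 2 : ℕ) : ℤ) := by
    rw [P.ord_div hw0 hu0, ow, ou]
    push_cast
    ring
  have o1 : P.ord (z / u) = (e : ℤ) * (f + 1) - 1 := by
    rw [P.ord_div hz0 hu0, oz, ou]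
  have o2 : P.ord (x / u) = (e : ℤ) - 1 := by
    rw [P.ord_div hx0 hu0, ox, ou]
  have o3 : P.ord (1 / u) = -1 := by
    rw [P.ord_div one_ne_zero hu0, P.ord_one, ou]
    ring
  have n0 : w / u ≠ 0 := div_ne_zero hw0 hu0
  have n1 : z / u ≠ 0 := div_ne_zero hz0 hu0
  have n2 : x / u ≠ 0 := div_ne_zero hx0 hu0
  have n3 : 1 / u ≠ 0 := div_ne_zero one_ne_zero hu0
  -- the order of `t`
  have hpow : ∀ m : ℕ, 1 ≤ m → P.Ge (u ^ m) (0 + 1) := by
    intro m hm
    refine Or.inr ?_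
    rw [P.ord_pow hu0, ou]
    have : (1 : ℤ) ≤ m := by exact_mod_cast hm
    linarith
  have hm1 : 1 ≤ e * (q ^ 2 - q) := by
    have h1 : 1 ≤ q ^ 2 - q := by
      have : q + 1 ≤ q ^ 2 := by nlinarith
      omega
    exact Nat.mul_pos he1 h1
  have hm2 : 1 ≤ e * (q ^ 2 + f * q - (f + q)) := by
    have h1 : 1 ≤ q ^ 2 + f * q - (f + q) := by
      have : f + q + 1 ≤ q ^ 2 + f * q := by nlinarith
      omega
    exact Nat.mul_pos he1 h1
  have hm3 : 1 ≤ (q ^ 2 + 1) * (q - 1) := Nat.mul_pos (by positivity) (by omega)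
  have hsum : P.Ge (u ^ (e * (q ^ 2 - q)) + u ^ (e * (q ^ 2 + f * q - (f + q))) +
      u ^ ((q ^ 2 + 1) * (q - 1))) (P.ord (1 : E) + 1) := by
    rw [P.ord_one]
    exact P.ge_add (P.ge_add (hpow _ hm1) (hpow _ hm2)) (hpow _ hm3)
  obtain ⟨hs0, hso⟩ := P.ord_add_of_lt (one_ne_zero : (1 : E) ≠ 0) hsum
  have hT' : t * u ^ (q ^ 3 - q ^ 2) = 1 + (u ^ (e * (q ^ 2 - q)) +
      u ^ (e * (q ^ 2 + f * q - (f + q))) + u ^ ((q ^ 2 + 1) * (q - 1))) := by
    rw [hT]
    ring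
  rw [← hT'] at hs0 hso
  have ht0 : t ≠ 0 := left_ne_zero_of_mul hs0
  have hto : P.ord t = -((q ^ 2 * (q - 1) : ℕ) : ℤ) := by
    rw [P.ord_mul _ _ ht0 (pow_ne_zero _ hu0), P.ord_pow hu0, ou, P.ord_one] at hso
    have h1 : q ^ 3 - q ^ 2 = q ^ 2 * (q - 1) := by
      rw [Nat.mul_sub]
      ring_nf
    rw [h1] at hso
    linarith
  have hq0 : 0 < q := by omega
  have htn : 0 < q ^ 2 * (q - 1) := Nat.mul_pos (by positivity) (by omega)
  refine ⟨E, inferInstance, inferInstance, t, ![w / u, z / u, x / u, 1 / u], ρ, P, ?_⟩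
  exact {
    rels := hR
    act_t := a1
    act_X := a2
    ne := ⟨ht0, n0, n1, n2, n3⟩
    ord_t := hto
    ord_0 := o0
    ord_1 := o1
    ord_2 := o2
    ord_3 := o3
    tr := une_tr_of_ne P t ht0 (by rw [hto]; omega)
    fixed := a3 }

end Pool.CND
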